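import Pool.Agent.H91.JS

set_option autoImplicit false

open H91JS in
theorem Pool.Agent.Results.MP_2cba5e_an.JointCont.result :
   
    ∀ (A : Type) [NormedAddCommGroup A] [NormedSpace ℂ A] [CompleteSpace A]
      (m : A →L[ℂ] A →L[ℂ] A) (s : A → A), IsJB m s →
      ∀ (I J : Type) (l : Filter I) (l' : Filter J) (f : I → DD A) (g : J → DD A) (x y : DD A),
        (∀ i, IsMult m (f i)) → (∀ j, IsMult m (g j)) → IsMult m x → IsMult m y →
        (∃ K, ∀ i, ‖f i‖ ≤ K) → (∃ K, ∀ j, ‖g j‖ ≤ K) → JLim m l f x → JLim m l' g y →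
        JLim m (l ×ˢ l') (fun p : I × J => arens m (f p.1) (g p.2)) (arens m x y) :=
  joint
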